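import Pool.Agent.Helper33.LMA.St

/-! Project LPA, module CHU: Chebyshev. -/

set_option autoImplicit false

noncomputable section

namespace Pool.Agent.Helper33.LMA

open Finset
open Pool.Agent.Helper98.LM (QQ)
open Pool.Agent.Helper6.LPA (Wt SvP StMAS StCMB)

/-- Chebyshev -/
private theorem chb (M : ℕ) (X Y : ℕ → ℝ) (μ : ℝ) (hμ : 0 ≤ μ)
    (hXY : ∀ m ∈ Icc 1 M, X m = 0 → Y m ≤ 0) :
    (((Icc 1 M).filter (fun m : ℕ => X m = 0)).card : ℝ) * μ ^ 2 ≤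
      ∑ m ∈ Icc 1 M, Y m ^ 2 - 2 * μ * ∑ m ∈ Icc 1 M, Y m + μ ^ 2 * M := by
  have h1 : ∑ m ∈ Icc 1 M, (Y m - μ) ^ 2 =
      ∑ m ∈ Icc 1 M, Y m ^ 2 - 2 * μ * ∑ m ∈ Icc 1 M, Y m + μ ^ 2 * M := by
    have h2 : ∀ m ∈ Icc 1 M, (Y m - μ) ^ 2 = Y m ^ 2 - 2 * μ * Y m + μ ^ 2 := by
      intro m _
      ring
    rw [sum_congr rfl h2, sum_add_distrib, sum_sub_distrib, ← mul_sum, sum_const, Nat.card_Icc]
    simp only [nsmul_eq_mul, Nat.add_sub_cancel]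
    ring
  rw [← h1]
  calc (((Icc 1 M).filter (fun m : ℕ => X m = 0)).card : ℝ) * μ ^ 2
      = ∑ m ∈ (Icc 1 M).filter (fun m : ℕ => X m = 0), μ ^ 2 := by
        rw [sum_const, nsmul_eq_mul]
    _ ≤ ∑ m ∈ (Icc 1 M).filter (fun m : ℕ => X m = 0), (Y m - μ) ^ 2 := by
        refine sum_le_sum fun m hm => ?_
        rw [mem_filter] at hm
        have := hXY m hm.1 hm.2
        nlinarith
    _ ≤ ∑ m ∈ Icc 1 M, (Y m - μ) ^ 2 :=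
        sum_le_sum_of_subset_of_nonneg (filter_subset _ _) fun _ _ _ => sq_nonneg _

/-- the final inequality -/
private theorem fin_chu (N τ η M J Λ C₁ C₂ b W₂ W₄ S1 S2 : ℝ) (hM : 0 ≤ M) (hη0 : 0 < η)
    (hη1 : η ≤ 1) (hτ : 0 < τ) (hJ0 : 0 < J) (hJ : J ≤ 2 * τ) (hΛ : 1 ≤ Λ) (hC₁ : 1 ≤ C₁)
    (hC₂ : 1 ≤ C₂) (hb : 1 ≤ b) (hW : W₂ ≤ W₄) (hW0 : 0 ≤ W₄)
    (h1 : (1 - C₁ * η) * (M * τ) - 2 * (τ * Λ * W₂) ≤ S1)
    (h2 : S2 ≤ (1 + C₂ * η) * (M * (τ * (τ + η * J + 1))) + C₂ * b * (M * τ * Λ) +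
      8 * (τ ^ 2 * Λ ^ 2 * W₄))
    (h3 : N * τ ^ 2 ≤ S2 - 2 * τ * S1 + τ ^ 2 * M) :
    N ≤ (7 * C₂ + 2 * C₁ + 4) * η * M + (7 * C₂ + 2 * C₁ + 4) * b * (M * Λ / J) +
      12 * (Λ ^ 2 * W₄) := by
  have a1 : 2 * τ * ((1 - C₁ * η) * (M * τ) - 2 * (τ * Λ * W₂)) ≤ 2 * τ * S1 :=
    mul_le_mul_of_nonneg_left h1 (by positivity)
  have a2 : (1 + C₂ * η) * (M * (τ * (τ + η * J + 1))) ≤
      (1 + C₂ * η) * (M * (τ * (τ + η * (2 * τ) + 1))) := by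
    gcongr
  have a3 : (1 + C₂ * η) * (M * (τ * (τ + η * (2 * τ) + 1))) =
      M * τ ^ 2 * ((1 + C₂ * η) * (1 + 2 * η)) + (1 + C₂ * η) * (M * τ) := by ring
  have a40 : C₂ * η * η ≤ C₂ * η * 1 := mul_le_mul_of_nonneg_left hη1 (by positivity)
  have a4 : (1 + C₂ * η) * (1 + 2 * η) ≤ 1 + (3 * C₂ + 2) * η := by nlinarith
  have a5 : M * τ ^ 2 * ((1 + C₂ * η) * (1 + 2 * η)) ≤ M * τ ^ 2 * (1 + (3 * C₂ + 2) * η) :=
    mul_le_mul_of_nonneg_left a4 (by positivity)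
  have hMτ : 0 ≤ M * τ := by positivity
  have hbΛ : 1 ≤ b * Λ := by nlinarith
  have a60 : C₂ * η ≤ C₂ * 1 := mul_le_mul_of_nonneg_left hη1 (by linarith)
  have a6 : (1 + C₂ * η) * (M * τ) ≤ (1 + C₂) * (M * τ) :=
    mul_le_mul_of_nonneg_right (by linarith) hMτ
  have a61 : (1 + C₂) * (M * τ) * 1 ≤ (1 + C₂) * (M * τ) * (b * Λ) :=
    mul_le_mul_of_nonneg_left hbΛ (by positivity)
  have a7 : Λ * W₂ ≤ Λ ^ 2 * W₄ := by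
    have q1 : Λ * W₂ ≤ Λ * W₄ := mul_le_mul_of_nonneg_left hW (by linarith)
    have q2 : Λ ≤ Λ ^ 2 := by nlinarith
    have q3 : Λ * W₄ ≤ Λ ^ 2 * W₄ := mul_le_mul_of_nonneg_right q2 hW0
    linarith
  have a8 : 4 * τ ^ 2 * (Λ * W₂) ≤ 4 * τ ^ 2 * (Λ ^ 2 * W₄) :=
    mul_le_mul_of_nonneg_left a7 (by positivity)
  obtain ⟨X, hX⟩ : ∃ X, X = M * Λ / J := ⟨_, rfl⟩
  have hX0 : 0 ≤ X := by rw [hX]; positivity
  have hXJ : X * J = M * Λ := by rw [hX]; field_simp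
  rw [← hX]
  have a9 : M * τ * Λ ≤ 2 * τ ^ 2 * X := by
    have q1 : X * τ * J ≤ X * τ * (2 * τ) := mul_le_mul_of_nonneg_left hJ (by positivity)
    nlinarith
  have a10 : (1 + 2 * C₂) * b * (M * τ * Λ) ≤ (1 + 2 * C₂) * b * (2 * τ ^ 2 * X) :=
    mul_le_mul_of_nonneg_left a9 (by positivity)
  have h8 : N * τ ^ 2 ≤ ((3 * C₂ + 2 + 2 * C₁) * η * M + (2 + 4 * C₂) * b * X +
      12 * (Λ ^ 2 * W₄)) * τ ^ 2 := by
    linarith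
  have h9 : N ≤ (3 * C₂ + 2 + 2 * C₁) * η * M + (2 + 4 * C₂) * b * X + 12 * (Λ ^ 2 * W₄) :=
    le_of_mul_le_mul_right h8 (by positivity)
  have h10 : 0 ≤ (4 * C₂ + 2) * η * M := by positivity
  have h11 : 0 ≤ (3 * C₂ + 2 * C₁ + 2) * b * X := by positivity
  linarith

open Classical in
/-- CHU. -/
theorem hCHU (hM : StMOR) (hS : StMSR) (hG : StGGL) (hX : StXPX) : StCHU := by
  obtain ⟨C₁, hC₁, H1⟩ := hM
  obtain ⟨C₂, hC₂, H2⟩ := hS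
  obtain ⟨C₃, hC₃, H3⟩ := hG
  refine ⟨7 * C₂ + 2 * C₁ + 4, by linarith, fun η B B₁ hη0 hη1 hB hsv => ?_⟩
  obtain ⟨p₁, hp₁, H2⟩ := H2 η B B₁ hη0 hη1 hB hsv
  refine ⟨p₁, hp₁, fun p P hp hP hl => ?_⟩
  obtain ⟨J₀, H2⟩ := H2 p P hp hP hl
  refine ⟨J₀, fun A Λ J a r z w M F hJ hJ1 hr1 hr2 hpz h400 hBz hzw hwz hW hΛ hV hτ => ?_⟩
  have hp24 : 24 ≤ p := hp₁.trans hp
  have hz1 : 1 ≤ z := by omega
  have hzw' : z ≤ w := (Nat.le_self_pow (by omega) z).trans hzw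
  have hw1 : (1 : ℝ) ≤ w := by exact_mod_cast hz1.trans hzw'
  have m1 := H1 η B B₁ hη0 hB hsv A Λ p P a r J M z w F hp24 hpz hzw hwz hl hW hΛ hV
  have m2 := H2 A Λ J a r z w M F hJ hr1 hr2 hpz h400 hBz hzw hwz hW hΛ hV
  have hVW : ∀ j ∈ TT A p w P r J, 0 < VW F p z P a (r + P * j) := by
    intro j hj
    have h1 := hV j hj
    unfold TT at hj
    rw [mem_filter] at hj
    have h2 := ((H3 p P a z w B B₁ F hp24 hpz hzw' hB hwz hl hW).1 (r + P * j)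
      (by have := hj.2.1; omega)).2.2.1
    have h3 : 0 < VV p w P a (r + P * j) := by
      by_contra hc
      push Not at hc
      nlinarith
    linarith
  have hXY : ∀ m ∈ Icc 1 M, XX A p w P a r J m = 0 → XW F A p z w P a r J m ≤ 0 :=
    fun m _ h0 => hX A Λ p z w P a r J m B₁ F hpz hzw' hW hΛ hV hVW h0
  obtain ⟨τ, hτd⟩ : ∃ τ : ℝ, τ = ((TT A p w P r J).card : ℝ) := ⟨_, rfl⟩
  rw [← hτd] at m1 m2 hτ
  have hJ0 : (0 : ℝ) < J := by exact_mod_cast hJ1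
  have hτ0 : 0 < τ := by linarith
  have h3 := chb M (fun m => XX A p w P a r J m) (fun m => XW F A p z w P a r J m) τ hτ0.le hXY
  have hb : (1 : ℝ) ≤ (B : ℝ) ^ 15 := by
    have : (1 : ℝ) ≤ B := by exact_mod_cast hB
    exact one_le_pow₀ this
  have hWW : (w : ℝ) ^ (2 * B₁ + 1) ≤ (w : ℝ) ^ (4 * B₁ + 1) :=
    pow_le_pow_right₀ hw1 (by omega)
  exact fin_chu _ τ η M J Λ C₁ C₂ ((B : ℝ) ^ 15) _ _ _ _ (Nat.cast_nonneg M) hη0 hη1 hτ0 hJ0 hτ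
    hΛ hC₁ hC₂ hb hWW (by positivity) m1 m2 h3

end Pool.Agent.Helper33.LMA
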