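import Pool.Agent.Helper33.LMA.St

/-!
# Project LPA (MP_5e9b96_nt), module MOR: the first moment
-/

set_option autoImplicit false

noncomputable section

namespace Pool.Agent.Helper33.LMA

open Finset
open Pool.Agent.Helper98.LM (QQ)
open Pool.Agent.Helper6.LPA (Wt SvP StMAS StCMB)

private lemma neg_one_abs (k : ℕ) (x : ℝ) : -|x| ≤ (-1 : ℝ) ^ k * x := by
  have h : |(-1 : ℝ) ^ k * x| = |x| := by
    rw [abs_mul, abs_pow, abs_neg, abs_one, one_pow, one_mul]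
  rw [← h]
  exact neg_abs_le _

theorem hMOR (hO : StONQ) (hG : StGGL) : StMOR := by
  classical
  obtain ⟨C₀, hC₀, hG⟩ := hG
  refine ⟨C₀ ^ 2, one_le_pow₀ hC₀, ?_⟩
  intro η B B₁ hη hB hS A Λ p P a r J M z w F hp hpz hzw hwz hPl hW hΛ hV
  have hz1 : 1 ≤ z := by omega
  have hzw' : z ≤ w := le_trans (Nat.le_self_pow (by omega) z) hzw
  obtain ⟨hG1, -⟩ := hG p P a z w B B₁ F hp hpz hzw' hB hwz hPl hW
  obtain ⟨hW1, hW2, -, -⟩ := hW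
  have hBr : (1 : ℝ) ≤ (B : ℝ) := by exact_mod_cast hB
  have hzB : (z : ℝ) ^ B ≤ (w : ℝ) := by exact_mod_cast hzw
  have hFc : (F.card : ℝ) ≤ (w : ℝ) ^ B₁ := by exact_mod_cast hW2
  have hw0 : (0 : ℝ) ≤ (w : ℝ) := Nat.cast_nonneg w
  have hswap : ∑ m ∈ Icc 1 M, XW F A p z w P a r J m =
      ∑ j ∈ TT A p w P r J, (VW F p z P a (r + P * j))⁻¹ *
        ∑ T ∈ F, (-1 : ℝ) ^ T.card * (((Icc 1 M).filter (fun m : ℕ =>
          Sf p z ((a : ℤ) + P * m) ((r + P * j : ℕ) : ℤ) ∧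
          Dv T ((a : ℤ) + P * m) ((r + P * j : ℕ) : ℤ))).card : ℝ) := by
    unfold XW
    simp only [sum_filter]
    rw [sum_comm]
    refine sum_congr rfl fun j _ => ?_
    have h1 : ∀ T : Finset ℕ, (((Icc 1 M).filter (fun m : ℕ =>
        Sf p z ((a : ℤ) + P * m) ((r + P * j : ℕ) : ℤ) ∧
        Dv T ((a : ℤ) + P * m) ((r + P * j : ℕ) : ℤ))).card : ℝ) =
        ∑ m ∈ Icc 1 M, if Sf p z ((a : ℤ) + P * m) ((r + P * j : ℕ) : ℤ) then
          (if Dv T ((a : ℤ) + P * m) ((r + P * j : ℕ) : ℤ) then (1 : ℝ) else 0) else 0 := by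
      intro T
      rw [Finset.card_filter, Nat.cast_sum]
      refine sum_congr rfl fun m _ => ?_
      by_cases c1 : Sf p z ((a : ℤ) + P * m) ((r + P * j : ℕ) : ℤ)
      · by_cases c2 : Dv T ((a : ℤ) + P * m) ((r + P * j : ℕ) : ℤ)
        · rw [if_pos ⟨c1, c2⟩, if_pos c1, if_pos c2, Nat.cast_one]
        · rw [if_neg (fun h => c2 h.2), if_pos c1, if_neg c2, Nat.cast_zero]
      · rw [if_neg (fun h => c1 h.1), if_neg c1, Nat.cast_zero]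
    have h2 : ∑ T ∈ F, (-1 : ℝ) ^ T.card * (((Icc 1 M).filter (fun m : ℕ =>
        Sf p z ((a : ℤ) + P * m) ((r + P * j : ℕ) : ℤ) ∧
        Dv T ((a : ℤ) + P * m) ((r + P * j : ℕ) : ℤ))).card : ℝ) =
        ∑ m ∈ Icc 1 M, if Sf p z ((a : ℤ) + P * m) ((r + P * j : ℕ) : ℤ) then
          WS F ((a : ℤ) + P * m) ((r + P * j : ℕ) : ℤ) else 0 := by
      rw [sum_congr rfl (fun T _ => by rw [h1 T, mul_sum]), sum_comm]
      refine sum_congr rfl fun m _ => ?_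
      unfold WS
      split_ifs with c1
      · rfl
      · simp
    rw [h2, mul_sum]
    refine sum_congr rfl fun m _ => ?_
    split_ifs
    · rfl
    · rw [mul_zero]
  rw [hswap]
  have hterm : ∀ j ∈ TT A p w P r J, (1 - C₀ ^ 2 * η) * M - 2 * (Λ * (w : ℝ) ^ (2 * B₁ + 1)) ≤
      (VW F p z P a (r + P * j))⁻¹ *
        ∑ T ∈ F, (-1 : ℝ) ^ T.card * (((Icc 1 M).filter (fun m : ℕ =>
          Sf p z ((a : ℤ) + P * m) ((r + P * j : ℕ) : ℤ) ∧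
          Dv T ((a : ℤ) + P * m) ((r + P * j : ℕ) : ℤ))).card : ℝ) := by
    intro j hj
    have h1 := hV j hj
    have hy : 2 ≤ r + P * j := by
      unfold TT at hj
      have := (mem_filter.1 hj).2.1
      omega
    obtain ⟨v1, v2, v3, v4, v5, -⟩ := hG1 (r + P * j) hy
    obtain ⟨V0, hV0⟩ : ∃ V0 : ℝ, V0 = VV p z P a (r + P * j) := ⟨_, rfl⟩
    obtain ⟨G, hGd⟩ : ∃ G : ℝ, G = GG F P a (r + P * j) := ⟨_, rfl⟩
    obtain ⟨V, hVd⟩ : ∃ V : ℝ, V = VW F p z P a (r + P * j) := ⟨_, rfl⟩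
    have hVeq : V = V0 * G := by rw [hVd, hV0, hGd]; rfl
    rw [← hV0] at v1
    rw [← hGd] at v2
    rw [← hVd] at v3
    rw [← hVd]
    have hVp : 0 < V := by
      by_contra hc
      push Not at hc
      have h3 : Λ * VV p w P a (r + P * j) ≤ Λ * (2 * V) :=
        mul_le_mul_of_nonneg_left v3 (by linarith)
      have h4 : Λ * (2 * V) ≤ 0 := mul_nonpos_of_nonneg_of_nonpos (by linarith) (by linarith)
      linarith
    have hinv : V⁻¹ ≤ 2 * Λ := by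
      rw [inv_le_iff_one_le_mul₀ hVp]
      have h3 : Λ * VV p w P a (r + P * j) ≤ Λ * (2 * V) :=
        mul_le_mul_of_nonneg_left v3 (by linarith)
      linarith
    have hquo : V0 * V⁻¹ ≤ C₀ * (B : ℝ) ^ 3 := by
      rw [mul_inv_le_iff₀ hVp, hVeq]
      have := mul_le_mul_of_nonneg_left v2 v1.le
      linarith
    have hT : ∀ T ∈ F, (-1 : ℝ) ^ T.card * (M * (V0 * gg P a (r + P * j) T)) -
        (η / (B : ℝ) ^ 12 * (M * (V0 * gg P a (r + P * j) T)) + (w : ℝ) * (w : ℝ) ^ B₁) ≤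
        (-1 : ℝ) ^ T.card * (((Icc 1 M).filter (fun m : ℕ =>
          Sf p z ((a : ℤ) + P * m) ((r + P * j : ℕ) : ℤ) ∧
          Dv T ((a : ℤ) + P * m) ((r + P * j : ℕ) : ℤ))).card : ℝ) := by
      intro T hTF
      obtain ⟨hTs, hTp⟩ := hW1 T hTF
      have h2 := hO η 12 B hS p P a (r + P * j) z w M T hTs hp hpz hPl hy
      rw [← hV0] at h2
      obtain ⟨c, hc⟩ : ∃ c : ℝ, c = (((Icc 1 M).filter (fun m : ℕ =>
          Sf p z ((a : ℤ) + P * m) ((r + P * j : ℕ) : ℤ) ∧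
          Dv T ((a : ℤ) + P * m) ((r + P * j : ℕ) : ℤ))).card : ℝ) := ⟨_, rfl⟩
      have h2' : |c - M * (V0 * gg P a (r + P * j) T)| ≤
          η / (B : ℝ) ^ 12 * (M * (V0 * gg P a (r + P * j) T)) + (z : ℝ) ^ B * ∏ l ∈ T, (l : ℝ) := by
        rw [hc]
        exact h2
      rw [← hc]
      have h3 := neg_one_abs T.card (c - M * (V0 * gg P a (r + P * j) T))
      have h4 : (∏ l ∈ T, (l : ℝ)) ≤ (w : ℝ) ^ B₁ := by
        have h6 : ((∏ l ∈ T, l : ℕ) : ℝ) ≤ ((w ^ B₁ : ℕ) : ℝ) := Nat.cast_le.2 hTp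
        rw [Nat.cast_prod, Nat.cast_pow] at h6
        exact h6
      have h5 : (z : ℝ) ^ B * ∏ l ∈ T, (l : ℝ) ≤ (w : ℝ) * (w : ℝ) ^ B₁ :=
        mul_le_mul hzB h4 (prod_nonneg fun l _ => Nat.cast_nonneg l) hw0
      rw [mul_sub] at h3
      linarith
    have hsum := sum_le_sum hT
    rw [sum_sub_distrib, sum_add_distrib, sum_const, nsmul_eq_mul, ← mul_sum, ← mul_sum] at hsum
    have e1 : ∑ T ∈ F, (-1 : ℝ) ^ T.card * (M * (V0 * gg P a (r + P * j) T)) = M * V := by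
      rw [hVeq, hGd]
      unfold GG
      rw [mul_sum, mul_sum]
      refine sum_congr rfl fun T _ => ?_
      ring
    rw [e1, ← mul_sum] at hsum
    obtain ⟨S, hSd⟩ : ∃ S : ℝ, S = ∑ T ∈ F, (-1 : ℝ) ^ T.card * (((Icc 1 M).filter (fun m : ℕ =>
          Sf p z ((a : ℤ) + P * m) ((r + P * j : ℕ) : ℤ) ∧
          Dv T ((a : ℤ) + P * m) ((r + P * j : ℕ) : ℤ))).card : ℝ) := ⟨_, rfl⟩
    rw [← hSd] at hsum ⊢
    have hM0 : (0 : ℝ) ≤ (M : ℝ) := Nat.cast_nonneg M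
    have hk0 : 0 ≤ η / (B : ℝ) ^ 12 := by positivity
    have b1 : η / (B : ℝ) ^ 12 * (M * (V0 * ∑ T ∈ F, gg P a (r + P * j) T)) ≤
        η / (B : ℝ) ^ 12 * (M * (V0 * (C₀ * (B : ℝ) ^ 3))) := by
      have := v1.le
      gcongr
    have b2 : (F.card : ℝ) * ((w : ℝ) * (w : ℝ) ^ B₁) ≤ (w : ℝ) ^ (2 * B₁ + 1) := by
      have h3 : (F.card : ℝ) * ((w : ℝ) * (w : ℝ) ^ B₁) ≤ (w : ℝ) ^ B₁ * ((w : ℝ) * (w : ℝ) ^ B₁) :=
        mul_le_mul_of_nonneg_right hFc (by positivity)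
      have h4 : (w : ℝ) ^ B₁ * ((w : ℝ) * (w : ℝ) ^ B₁) = (w : ℝ) ^ (2 * B₁ + 1) := by
        rw [pow_succ, two_mul, pow_add]
        ring
      linarith
    have b3 : M * V - η / (B : ℝ) ^ 12 * (M * (V0 * (C₀ * (B : ℝ) ^ 3))) - (w : ℝ) ^ (2 * B₁ + 1) ≤ S := by
      linarith
    have b4 := mul_le_mul_of_nonneg_left b3 (inv_nonneg.2 hVp.le)
    have e2 : V⁻¹ * (M * V - η / (B : ℝ) ^ 12 * (M * (V0 * (C₀ * (B : ℝ) ^ 3))) -
        (w : ℝ) ^ (2 * B₁ + 1)) =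
        M - (η / (B : ℝ) ^ 12 * M * (C₀ * (B : ℝ) ^ 3)) * (V0 * V⁻¹) -
          V⁻¹ * (w : ℝ) ^ (2 * B₁ + 1) := by
      have : V⁻¹ * V = 1 := inv_mul_cancel₀ hVp.ne'
      linear_combination (M : ℝ) * this
    rw [e2] at b4
    have b5 : (η / (B : ℝ) ^ 12 * M * (C₀ * (B : ℝ) ^ 3)) * (V0 * V⁻¹) ≤
        (η / (B : ℝ) ^ 12 * M * (C₀ * (B : ℝ) ^ 3)) * (C₀ * (B : ℝ) ^ 3) :=
      mul_le_mul_of_nonneg_left hquo (by positivity)
    have b6 : (η / (B : ℝ) ^ 12 * M * (C₀ * (B : ℝ) ^ 3)) * (C₀ * (B : ℝ) ^ 3) ≤ C₀ ^ 2 * η * M := by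
      have e3 : (η / (B : ℝ) ^ 12 * M * (C₀ * (B : ℝ) ^ 3)) * (C₀ * (B : ℝ) ^ 3) =
          C₀ ^ 2 * η * M * (1 / (B : ℝ) ^ 6) := by
        field_simp
      rw [e3]
      have h3 : 1 / (B : ℝ) ^ 6 ≤ 1 := by
        rw [div_le_one (by positivity)]
        exact one_le_pow₀ hBr
      have h4 : 0 ≤ C₀ ^ 2 * η * M := by positivity
      calc C₀ ^ 2 * η * M * (1 / (B : ℝ) ^ 6) ≤ C₀ ^ 2 * η * M * 1 :=
            mul_le_mul_of_nonneg_left h3 h4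
        _ = C₀ ^ 2 * η * M := mul_one _
    have b7 : V⁻¹ * (w : ℝ) ^ (2 * B₁ + 1) ≤ 2 * Λ * (w : ℝ) ^ (2 * B₁ + 1) :=
      mul_le_mul_of_nonneg_right hinv (by positivity)
    linarith
  have hs := sum_le_sum hterm
  rw [sum_const, nsmul_eq_mul] at hs
  refine le_trans (le_of_eq ?_) hs
  ring

end Pool.Agent.Helper33.LMA
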