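import Pool.Agent.Helper33.LMA.St

/-! # Project LPA (MP_5e9b96_nt), module MSR: the second moment -/

set_option autoImplicit false

namespace Pool.Agent.Helper33.LMA

open Finset
open Pool.Agent.Helper98.LM (QQ)
open Pool.Agent.Helper6.LPA (Wt SvP StMAS StCMB)

open Classical in
private theorem sq_sum (s I : Finset ℕ) (v : ℕ → ℝ) (w : ℕ → ℕ → ℝ) (A : ℕ → ℕ → Prop) :
    ∑ m ∈ s, (∑ j ∈ I.filter (fun j => A j m), v j * w j m) ^ 2 =
      (∑ j ∈ I, v j ^ 2 * ∑ m ∈ s.filter (fun m => A j m), w j m ^ 2) +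
      ∑ j' ∈ I, ∑ j ∈ I.erase j', v j * v j' * ∑ m ∈ s.filter (fun m => A j m ∧ A j' m), w j m * w j' m := by
  have e1 : ∀ m, (∑ j ∈ I.filter (fun j => A j m), v j * w j m) =
      ∑ j ∈ I, v j * (if A j m then w j m else 0) := by
    intro m
    rw [Finset.sum_filter]
    exact Finset.sum_congr rfl fun j _ => by split_ifs <;> simp
  have e0 : ∀ j, (∑ m ∈ s.filter (fun m => A j m), w j m ^ 2) =
      ∑ m ∈ s, (if A j m then w j m else 0) ^ 2 := by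
    intro j
    rw [Finset.sum_filter]
    exact Finset.sum_congr rfl fun m _ => by split_ifs <;> simp
  have e2 : ∀ j j', (∑ m ∈ s.filter (fun m => A j m ∧ A j' m), w j m * w j' m) =
      ∑ m ∈ s, (if A j m then w j m else 0) * (if A j' m then w j' m else 0) := by
    intro j j'
    rw [Finset.sum_filter]
    refine Finset.sum_congr rfl fun m _ => ?_
    by_cases h1 : A j m <;> by_cases h2 : A j' m <;> simp [h1, h2]
  simp only [e1, e2, e0]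
  have e3 : ∀ m, (∑ j ∈ I, v j * (if A j m then w j m else 0)) ^ 2 =
      (∑ j ∈ I, v j ^ 2 * (if A j m then w j m else 0) ^ 2) +
      ∑ j' ∈ I, ∑ j ∈ I.erase j', v j * v j' *
        ((if A j m then w j m else 0) * (if A j' m then w j' m else 0)) := by
    intro m
    rw [pow_two, Finset.mul_sum, ← Finset.sum_add_distrib]
    refine Finset.sum_congr rfl fun j' hj' => ?_
    rw [← Finset.add_sum_erase I (fun j => v j * (if A j m then w j m else 0)) hj',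
      add_mul, Finset.sum_mul]
    congr 1
    · ring
    · exact Finset.sum_congr rfl fun j _ => by ring
  simp only [e3, Finset.sum_add_distrib, Finset.mul_sum]
  congr 1
  · exact Finset.sum_comm
  · rw [Finset.sum_comm]
    refine Finset.sum_congr rfl fun j' _ => ?_
    rw [Finset.sum_comm]

private theorem corr_ge (Q : Finset ℕ) : (1 : ℝ) ≤ ∏ l ∈ Q, (1 + 8 / (l : ℝ)) := by
  refine Finset.one_le_prod (fun l _ => ?_)
  have : (0 : ℝ) ≤ 8 / (l : ℝ) := by positivity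
  linarith

/-- Module MSR. -/
theorem hMSR (hD : StDIA) (hO : StOFF) (hG : StGGL) (hB : StDDB) (hP : StGAP) : StMSR := by
  classical
  obtain ⟨C₁, hC₁, H1⟩ := hD
  obtain ⟨C₂, hC₂, H2⟩ := hO
  obtain ⟨C₃, hC₃, HG⟩ := hG
  have hC13 : 1 ≤ C₁ * C₃ := one_le_mul_of_one_le_of_one_le hC₁ hC₃
  refine ⟨C₂ + 2 * (C₁ * C₃), by linarith, ?_⟩
  intro η B B₁ hη hη1 hB1 hSv
  obtain ⟨p₂, H3⟩ := hP η hη
  refine ⟨max 24 p₂, le_max_left _ _, ?_⟩
  intro p P hp hP1 hl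
  have hp24 : 24 ≤ p := le_trans (le_max_left _ _) hp
  obtain ⟨J₂, H3'⟩ := H3 p P (le_trans (le_max_right _ _) hp) hP1 hl
  refine ⟨max 1 J₂, ?_⟩
  intro A Λ J a r z w M F hJ hr hrP hpz hKz hBz hzw hwz hWt hΛ hV
  have hJ2 : J₂ ≤ J := le_trans (le_max_right _ _) hJ
  have hJ1 : 1 ≤ J := le_trans (le_max_left _ _) hJ
  have F3 := H3' J r z hJ2 hr hrP
  have hzw' : z ≤ w := (Nat.le_self_pow (by omega) z).trans hzw
  obtain ⟨W, hW⟩ : ∃ W : ℝ, W = (w : ℝ) ^ (4 * B₁ + 1) := ⟨_, rfl⟩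
  have hW0 : 0 ≤ W := by rw [hW]; positivity
  have hM0 : (0 : ℝ) ≤ M := Nat.cast_nonneg M
  have hΛ0 : (0 : ℝ) < Λ := by linarith
  obtain ⟨T, hT⟩ : ∃ T, T = TT A p w P r J := ⟨_, rfl⟩
  rw [← hW, ← hT]
  rw [← hT] at hV
  have hT6 : ∀ j ∈ T, 6 ≤ r + P * j := by
    intro j hj
    rw [hT] at hj
    exact ((Finset.mem_filter.1 hj).2).1
  have hTs : T ⊆ Icc 1 J := by
    rw [hT]; exact Finset.filter_subset _ _
  have hTK : ∀ j ∈ T, r + P * j ≤ P * (J + 1) := by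
    intro j hj
    have h1 := (Finset.mem_Icc.1 (hTs hj)).2
    calc r + P * j ≤ P + P * J := Nat.add_le_add hrP (Nat.mul_le_mul_left P h1)
      _ = P * (J + 1) := by ring
  obtain ⟨V, hVd⟩ : ∃ V : ℕ → ℝ, V = fun j => VW F p z P a (r + P * j) := ⟨_, rfl⟩
  obtain ⟨U, hU⟩ : ∃ U : ℕ → ℝ, U = fun j => VV p z P a (r + P * j) := ⟨_, rfl⟩
  obtain ⟨G, hG⟩ : ∃ G : ℕ → ℝ, G = fun j => GG F P a (r + P * j) := ⟨_, rfl⟩
  have hVUG : ∀ j, V j = U j * G j := by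
    intro j
    rw [hVd, hU, hG]
    rfl
  have hGG := (HG p P a z w B B₁ F hp24 hpz hzw' hB1 hwz hl hWt).1
  have hU0 : ∀ j ∈ T, 0 < U j := by
    intro j hj
    rw [hU]
    exact (hGG (r + P * j) (le_trans (by norm_num) (hT6 j hj))).1
  have hG1 : ∀ j ∈ T, 1 ≤ C₃ * (B : ℝ) ^ 3 * G j := by
    intro j hj
    rw [hG]
    exact (hGG (r + P * j) (le_trans (by norm_num) (hT6 j hj))).2.1
  have hVV : ∀ j ∈ T, VV p w P a (r + P * j) ≤ 2 * V j := by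
    intro j hj
    rw [hVd]
    exact (hGG (r + P * j) (le_trans (by norm_num) (hT6 j hj))).2.2.1
  have hV' : ∀ j ∈ T, 1 ≤ 2 * Λ * V j := by
    intro j hj
    have h1 := hV j hj
    have h2 := mul_le_mul_of_nonneg_left (hVV j hj) hΛ0.le
    linarith
  have hVp : ∀ j ∈ T, 0 < V j := by
    intro j hj
    have e := hV' j hj
    by_contra hc
    rw [not_lt] at hc
    have := mul_nonpos_of_nonneg_of_nonpos (by linarith : (0 : ℝ) ≤ 2 * Λ) hc
    linarith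
  have hvi : ∀ j ∈ T, (V j)⁻¹ ≤ 2 * Λ := by
    intro j hj
    rw [inv_le_iff_one_le_mul₀ (hVp j hj)]
    exact hV' j hj
  have hv0 : ∀ j ∈ T, 0 ≤ (V j)⁻¹ := fun j hj => inv_nonneg.2 (hVp j hj).le
  obtain ⟨S, hS⟩ : ∃ S : ℕ → ℕ → Prop, S = fun (j m : ℕ) => Sf p z ((a : ℤ) + P * (m : ℤ)) ((r + P * j : ℕ) : ℤ) := ⟨_, rfl⟩
  obtain ⟨X, hX⟩ : ∃ X : ℕ → ℕ → ℝ, X = fun (j m : ℕ) => WS F ((a : ℤ) + P * (m : ℤ)) ((r + P * j : ℕ) : ℤ) := ⟨_, rfl⟩
  obtain ⟨h, hh⟩ : ∃ h : ℕ → ℕ → ℝ, h = fun j j' =>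
      ∏ l ∈ (QQ p z).filter (fun l => l ∣ DD (r + P * j) (r + P * j')), (1 + 8 / (l : ℝ)) := ⟨_, rfl⟩
  have hh1 : ∀ j j', 1 ≤ h j j' := fun j j' => by rw [hh]; exact corr_ge _
  have hF3 : ∀ j' ∈ Icc 1 J, ∑ j ∈ (Icc 1 J).erase j', h j j' ≤ (1 + η) * J := by
    intro j' hj'
    rw [hh]; exact F3 j' hj'
  have hone : ∀ j ∈ T, ∑ m ∈ (Icc 1 M).filter (fun m : ℕ => S j m), X j m ^ 2 ≤
      C₁ * (B : ℝ) ^ 12 * (M * U j) + W := by
    intro j hj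
    have e := H1 η B B₁ hη hη1 hB1 hSv p P a (r + P * j) M z w F hp24 hpz hzw hwz hl
      (le_trans (by norm_num) (hT6 j hj)) hWt
    rw [hS, hX, hU, hW]
    exact e
  have hpair : ∀ j ∈ T, ∀ j' ∈ T, j ≠ j' →
      ∑ m ∈ (Icc 1 M).filter (fun m : ℕ => S j m ∧ S j' m), X j m * X j' m ≤
      (1 + C₂ * η) * (M * (V j * V j') * h j j') + W := by
    intro j hj j' hj' hne
    have hne' : r + P * j ≠ r + P * j' := by
      intro h1
      exact hne (Nat.eq_of_mul_eq_mul_left (by omega) (Nat.add_left_cancel h1))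
    obtain ⟨d1, d2⟩ := hB (P * (J + 1)) (r + P * j) (r + P * j')
      (le_trans (by norm_num) (hT6 j hj)) (le_trans (by norm_num) (hT6 j' hj')) (hTK j hj)
      (hTK j' hj') hne'
    have e := H2 η B B₁ hη hη1 hB1 hSv p P a (r + P * j) (r + P * j') M z w F hp24 hpz hzw hwz hl
      (le_trans (by norm_num) (hT6 j hj)) (le_trans (by norm_num) (hT6 j' hj')) d1
      (d2.trans hKz) hBz hWt
    rw [hS, hX, hVd, hh, hW]
    refine le_trans (le_of_eq ?_) e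
    congr 2
  have key := sq_sum (Icc 1 M) T (fun j => (V j)⁻¹) X S
  have hXX : ∀ m, XW F A p z w P a r J m = ∑ j ∈ T.filter (fun j => S j m), (V j)⁻¹ * X j m := by
    intro m
    rw [hT, hS, hVd, hX]
    unfold XW
    rfl
  simp only [hXX]
  rw [key]
  obtain ⟨τ, hτ⟩ : ∃ τ : ℝ, τ = (T.card : ℝ) := ⟨_, rfl⟩
  rw [← hτ]
  have hτ0 : 0 ≤ τ := by rw [hτ]; positivity
  have hττ : τ ≤ τ ^ 2 := by
    rw [hτ]
    exact_mod_cast Nat.le_self_pow (by norm_num) _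
  have hB0 : (0 : ℝ) ≤ B := Nat.cast_nonneg B
  -- diagonal
  have hd : ∑ j ∈ T, (V j)⁻¹ ^ 2 * ∑ m ∈ (Icc 1 M).filter (fun m => S j m), X j m ^ 2 ≤
      τ * (2 * (C₁ * C₃) * (B : ℝ) ^ 15 * (M * Λ) + 4 * (Λ ^ 2 * W)) := by
    have : ∀ j ∈ T, (V j)⁻¹ ^ 2 * ∑ m ∈ (Icc 1 M).filter (fun m => S j m), X j m ^ 2 ≤
        2 * (C₁ * C₃) * (B : ℝ) ^ 15 * (M * Λ) + 4 * (Λ ^ 2 * W) := by
      intro j hj
      have h0 := hVp j hj
      have hu := hU0 j hj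
      have hg1 := hG1 j hj
      have hg0 : 0 < G j := by
        by_contra hc
        rw [not_lt] at hc
        have h9 : C₃ * (B : ℝ) ^ 3 * G j ≤ 0 :=
          mul_nonpos_of_nonneg_of_nonpos (by positivity) hc
        linarith
      have h1 := mul_le_mul_of_nonneg_left (hone j hj) (sq_nonneg (V j)⁻¹)
      refine h1.trans ?_
      have h2 : (V j)⁻¹ ^ 2 * (C₁ * (B : ℝ) ^ 12 * (M * U j) + W) =
          C₁ * (B : ℝ) ^ 12 * M * ((V j)⁻¹ * (G j)⁻¹) + (V j)⁻¹ ^ 2 * W := by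
        have h3 : (V j)⁻¹ * U j = (G j)⁻¹ := by
          rw [hVUG j, mul_inv]
          field_simp
        have h4 : (V j)⁻¹ ^ 2 * (C₁ * (B : ℝ) ^ 12 * (M * U j) + W) =
            C₁ * (B : ℝ) ^ 12 * M * ((V j)⁻¹ * ((V j)⁻¹ * U j)) + (V j)⁻¹ ^ 2 * W := by
          ring
        rw [h4, h3]
      rw [h2]
      have hgi : (G j)⁻¹ ≤ C₃ * (B : ℝ) ^ 3 := by
        rw [inv_le_iff_one_le_mul₀ hg0]
        exact hg1
      have h5 : (V j)⁻¹ ^ 2 ≤ (2 * Λ) ^ 2 := pow_le_pow_left₀ (hv0 j hj) (hvi j hj) 2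
      have h6 := mul_le_mul_of_nonneg_right h5 hW0
      have h7 : (V j)⁻¹ * (G j)⁻¹ ≤ 2 * Λ * (C₃ * (B : ℝ) ^ 3) :=
        mul_le_mul (hvi j hj) hgi (inv_nonneg.2 hg0.le) (by positivity)
      have h8 : C₁ * (B : ℝ) ^ 12 * M * ((V j)⁻¹ * (G j)⁻¹) ≤
          C₁ * (B : ℝ) ^ 12 * M * (2 * Λ * (C₃ * (B : ℝ) ^ 3)) :=
        mul_le_mul_of_nonneg_left h7 (by positivity)
      have h9 : C₁ * (B : ℝ) ^ 12 * M * (2 * Λ * (C₃ * (B : ℝ) ^ 3)) =
          2 * (C₁ * C₃) * (B : ℝ) ^ 15 * (M * Λ) := by ring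
      have h10 : (2 * Λ) ^ 2 * W = 4 * (Λ ^ 2 * W) := by ring
      linarith
    have h8 := Finset.sum_le_sum this
    rw [Finset.sum_const, nsmul_eq_mul, ← hτ] at h8
    exact h8
  -- off-diagonal
  have hη2 : 0 ≤ 1 + C₂ * η := by positivity
  have ho : ∑ j' ∈ T, ∑ j ∈ T.erase j', (V j)⁻¹ * (V j')⁻¹ *
      ∑ m ∈ (Icc 1 M).filter (fun m => S j m ∧ S j' m), X j m * X j' m ≤
      τ * ((1 + C₂ * η) * (M * (τ + η * J + 1)) + τ * (4 * (Λ ^ 2 * W))) := by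
    have hin : ∀ j' ∈ T, ∑ j ∈ T.erase j', (V j)⁻¹ * (V j')⁻¹ *
      ∑ m ∈ (Icc 1 M).filter (fun m => S j m ∧ S j' m), X j m * X j' m ≤
      (1 + C₂ * η) * (M * (τ + η * J + 1)) + τ * (4 * (Λ ^ 2 * W)) := by
      intro j' hj'
      have q1 : ∀ j ∈ T.erase j', (V j)⁻¹ * (V j')⁻¹ *
          ∑ m ∈ (Icc 1 M).filter (fun m => S j m ∧ S j' m), X j m * X j' m ≤
          (1 + C₂ * η) * M * h j j' + 4 * (Λ ^ 2 * W) := by
        intro j hj
        have hjT := Finset.mem_of_mem_erase hj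
        have hjne := Finset.ne_of_mem_erase hj
        have hn : 0 ≤ (V j)⁻¹ * (V j')⁻¹ := mul_nonneg (hv0 j hjT) (hv0 j' hj')
        have h1 := mul_le_mul_of_nonneg_left (hpair j hjT j' hj' hjne) hn
        refine h1.trans ?_
        have h3 : (V j)⁻¹ * V j = 1 := inv_mul_cancel₀ (hVp j hjT).ne'
        have h3' : (V j')⁻¹ * V j' = 1 := inv_mul_cancel₀ (hVp j' hj').ne'
        have h4 : (V j)⁻¹ * (V j')⁻¹ * ((1 + C₂ * η) * (M * (V j * V j') * h j j') + W) =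
            (1 + C₂ * η) * M * h j j' * (((V j)⁻¹ * V j) * ((V j')⁻¹ * V j')) +
              (V j)⁻¹ * (V j')⁻¹ * W := by
          ring
        rw [h4, h3, h3', mul_one, mul_one]
        have h5 : (V j)⁻¹ * (V j')⁻¹ ≤ 2 * Λ * (2 * Λ) :=
          mul_le_mul (hvi j hjT) (hvi j' hj') (hv0 j' hj') (by positivity)
        have h6 := mul_le_mul_of_nonneg_right h5 hW0
        have h7 : 2 * Λ * (2 * Λ) * W = 4 * (Λ ^ 2 * W) := by ring
        linarith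
      refine (Finset.sum_le_sum q1).trans ?_
      rw [Finset.sum_add_distrib, ← Finset.mul_sum, Finset.sum_const, nsmul_eq_mul]
      have hc1 : (((T.erase j').card : ℕ) : ℝ) ≤ τ := by
        rw [hτ]
        exact_mod_cast Finset.card_erase_le
      have hJ' : j' ∈ Icc 1 J := hTs hj'
      have hsub : T.erase j' ⊆ (Icc 1 J).erase j' := Finset.erase_subset_erase _ hTs
      have q2 : ∑ j ∈ T.erase j', (h j j' - 1) ≤ ∑ j ∈ (Icc 1 J).erase j', (h j j' - 1) :=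
        Finset.sum_le_sum_of_subset_of_nonneg hsub fun j _ _ => by linarith [hh1 j j']
      rw [Finset.sum_sub_distrib, Finset.sum_sub_distrib, Finset.sum_const, Finset.sum_const,
        nsmul_eq_mul, nsmul_eq_mul, mul_one, mul_one] at q2
      have hc2 : ((((Icc 1 J).erase j').card : ℕ) : ℝ) = J - 1 := by
        rw [Finset.card_erase_of_mem hJ', Nat.card_Icc, Nat.add_sub_cancel, Nat.cast_sub hJ1,
          Nat.cast_one]
      rw [hc2] at q2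
      have q3 := hF3 j' hJ'
      have q4 : ∑ j ∈ T.erase j', h j j' ≤ τ + η * J + 1 := by linarith
      have q5 : (1 + C₂ * η) * M * ∑ j ∈ T.erase j', h j j' ≤ (1 + C₂ * η) * M * (τ + η * J + 1) :=
        mul_le_mul_of_nonneg_left q4 (by positivity)
      have q6 : (((T.erase j').card : ℕ) : ℝ) * (4 * (Λ ^ 2 * W)) ≤ τ * (4 * (Λ ^ 2 * W)) :=
        mul_le_mul_of_nonneg_right hc1 (by positivity)
      linarith
    have h8 := Finset.sum_le_sum hin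
    rw [Finset.sum_const, nsmul_eq_mul, ← hτ] at h8
    exact h8
  have hfin : τ * (4 * (Λ ^ 2 * W)) ≤ τ ^ 2 * (4 * (Λ ^ 2 * W)) :=
    mul_le_mul_of_nonneg_right hττ (by positivity)
  have e1 := add_le_add hd ho
  refine e1.trans ?_
  have e2 : τ * (2 * (C₁ * C₃) * (B : ℝ) ^ 15 * (M * Λ) + 4 * (Λ ^ 2 * W)) +
      τ * ((1 + C₂ * η) * (M * (τ + η * J + 1)) + τ * (4 * (Λ ^ 2 * W))) =
      (1 + C₂ * η) * (M * (τ * (τ + η * J + 1))) + 2 * (C₁ * C₃) * (B : ℝ) ^ 15 * (M * τ * Λ) +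
        (τ * (4 * (Λ ^ 2 * W)) + τ ^ 2 * (4 * (Λ ^ 2 * W))) := by
    ring
  rw [e2]
  have e3 : 8 * (τ ^ 2 * Λ ^ 2 * W) = τ ^ 2 * (4 * (Λ ^ 2 * W)) + τ ^ 2 * (4 * (Λ ^ 2 * W)) := by ring
  rw [e3]
  have e4 : (1 + C₂ * η) * (M * (τ * (τ + η * J + 1))) ≤
      (1 + (C₂ + 2 * (C₁ * C₃)) * η) * (M * (τ * (τ + η * J + 1))) := by
    refine mul_le_mul_of_nonneg_right ?_ (by positivity)
    have : C₂ * η ≤ (C₂ + 2 * (C₁ * C₃)) * η := mul_le_mul_of_nonneg_right (by linarith) hη.le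
    linarith
  have e5 : 2 * (C₁ * C₃) * (B : ℝ) ^ 15 * (M * τ * Λ) ≤
      (C₂ + 2 * (C₁ * C₃)) * (B : ℝ) ^ 15 * (M * τ * Λ) := by
    refine mul_le_mul_of_nonneg_right ?_ (by positivity)
    exact mul_le_mul_of_nonneg_right (by linarith) (by positivity)
  linarith

end Pool.Agent.Helper33.LMA
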