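import Pool.Agent.Helper33.LMA.St

/-!
Module XPX of project LPA.
-/

set_option autoImplicit false

noncomputable section

namespace Pool.Agent.Helper33.LMA

open Finset
open Pool.Agent.Helper98.LM (QQ)
open Pool.Agent.Helper6.LPA (Wt SvP StMAS StCMB)

private lemma mem_split {p z w l : ℕ} (hl : l ∈ QQ p w) : l ∈ QQ p z ∨ l ∈ QQ z w := by
  unfold QQ at *
  simp only [mem_filter, mem_Ioc] at *
  rcases le_or_gt l z with h | h
  · exact Or.inl ⟨⟨hl.1.1, h⟩, hl.2⟩
  · exact Or.inr ⟨⟨h, hl.1.2⟩, hl.2⟩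

/-- XPX -/
theorem hXPX : StXPX := by
  classical
  intro A Λ p z w P a r J m B₁ F hpz hzw hW hΛ hV hVW hX
  have hVpos : ∀ j ∈ TT A p w P r J, 0 < VV p w P a (r + P * j) := by
    intro j hj
    have h1 := hV j hj
    by_contra hc
    push Not at hc
    have : Λ * VV p w P a (r + P * j) ≤ 0 := mul_nonpos_of_nonneg_of_nonpos (by linarith) hc
    linarith
  unfold XW
  refine Finset.sum_nonpos fun j hj => ?_
  rw [mem_filter] at hj
  obtain ⟨hjT, hjS⟩ := hj
  have hws : WS F ((a : ℤ) + P * m) ((r + P * j : ℕ) : ℤ) ≤ 0 := by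
    have h1 := hW.2.2.1 (fun l : ℕ => (l : ℤ) ∣ ff ((a : ℤ) + P * m) ((r + P * j : ℕ) : ℤ))
    have h2 : WS F ((a : ℤ) + P * m) ((r + P * j : ℕ) : ℤ) ≤
        if ∀ l ∈ QQ z w, ¬ (l : ℤ) ∣ ff ((a : ℤ) + P * m) ((r + P * j : ℕ) : ℤ) then 1 else 0 := by
      unfold WS Dv
      convert h1
    refine h2.trans ?_
    split_ifs with h3
    · exfalso
      have hSf : Sf p w ((a : ℤ) + P * m) ((r + P * j : ℕ) : ℤ) := by
        intro l hl
        rcases mem_split (z := z) hl with h | h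
        · exact hjS l h
        · exact h3 l h
      have hpos : 0 < XX A p w P a r J m := by
        unfold XX
        refine Finset.sum_pos' (fun i hi => ?_) ⟨j, ?_, ?_⟩
        · exact (inv_pos.2 (hVpos i (mem_of_mem_filter i hi))).le
        · exact mem_filter.2 ⟨hjT, hSf⟩
        · exact inv_pos.2 (hVpos j hjT)
      exact hpos.ne' hX
    · exact le_rfl
  exact mul_nonpos_of_nonneg_of_nonpos (inv_pos.2 (hVW j hjT)).le hws

end Pool.Agent.Helper33.LMA
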