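import Pool.Agent.Helper33.LMA.St

/-!
# Project LMA, the modules LOP, DDB, GAP, VLP, TGO, RRP
-/

set_option autoImplicit false

noncomputable section

namespace Pool.Agent.Helper33.LMA

open Finset
open Pool.Agent.Helper98.LM (QQ rh StLOC StGAB StVLB)

private lemma SS_eq (P a y l : ℕ) : SS P a y l = Pool.Agent.Helper98.LM.SS P a y l := rfl

/-- LOP -/
theorem hLOP (hL : StLOC) : StLOP := by
  intro P a l hl h3 hP
  refine ⟨fun y _ => ?_, fun y z hd => ?_⟩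
  · have h := (hL P a l hl h3 hP).1 y
    rw [SS_eq]
    have : ((Pool.Agent.Helper98.LM.SS P a y l).card : ℝ) ≤ 2 := by exact_mod_cast h
    linarith
  · rw [Finset.disjoint_left]
    intro s hs ht
    unfold SS at hs ht
    have h1 := (mem_filter.1 hs).2
    have h2 := (mem_filter.1 ht).2
    have hli : Prime (l : ℤ) := Nat.prime_iff_prime_int.1 hl
    obtain ⟨n, hn⟩ : ∃ n : ℤ, n = (a : ℤ) + P * s := ⟨_, rfl⟩
    rw [← hn] at h1 h2
    unfold ff at h1 h2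
    have e1 : (l : ℤ) ∣ ((y : ℤ) - z) * ((y : ℤ) + z - n) := by
      have := dvd_sub h1 h2
      have e : n ^ 2 - n * (y : ℤ) + (y : ℤ) ^ 2 - (n ^ 2 - n * (z : ℤ) + (z : ℤ) ^ 2) =
          ((y : ℤ) - z) * ((y : ℤ) + z - n) := by ring
      rwa [e] at this
    apply hd
    unfold DD
    rcases hli.dvd_or_dvd e1 with h | h
    · exact Dvd.dvd.mul_right (Int.natCast_dvd.1 h) _
    · have e2 : (l : ℤ) ∣ ((y ^ 2 + y * z + z ^ 2 : ℕ) : ℤ) := by
        have e3 : ((y ^ 2 + y * z + z ^ 2 : ℕ) : ℤ) =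
            (n ^ 2 - n * (y : ℤ) + (y : ℤ) ^ 2) + ((y : ℤ) + z - n) * (n + z) := by
          push_cast
          ring
        rw [e3]
        exact dvd_add h1 (Dvd.dvd.mul_right h _)
      exact Dvd.dvd.mul_left (by exact_mod_cast e2) _

/-- DDB -/
theorem hDDB : StDDB := by
  intro K y z hy hz hyK hzK hne
  unfold DD
  have h1 : 1 ≤ ((y : ℤ) - z).natAbs := by
    have : (y : ℤ) - z ≠ 0 := by
      intro h
      apply hne
      have : (y : ℤ) = z := by linarith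
      exact_mod_cast this
    exact Int.natAbs_pos.2 this
  have h2 : ((y : ℤ) - z).natAbs ≤ K := by omega
  have h3 : 1 ≤ y ^ 2 + y * z + z ^ 2 := by
    have : 1 ≤ y ^ 2 := Nat.one_le_pow _ _ hy
    omega
  have h4 : y ^ 2 + y * z + z ^ 2 ≤ 3 * K ^ 2 := by
    have a1 : y ^ 2 ≤ K ^ 2 := Nat.pow_le_pow_left hyK 2
    have a2 : z ^ 2 ≤ K ^ 2 := Nat.pow_le_pow_left hzK 2
    have a3 : y * z ≤ K ^ 2 := by rw [pow_two]; exact Nat.mul_le_mul hyK hzK
    omega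
  refine ⟨Nat.mul_pos h1 h3, ?_⟩
  have hK : 1 ≤ K := hy.trans hyK
  calc ((y : ℤ) - z).natAbs * (y ^ 2 + y * z + z ^ 2) ≤ K * (3 * K ^ 2) := Nat.mul_le_mul h2 h4
    _ = 3 * K ^ 3 := by ring
    _ ≤ 400 * K ^ 13 := Nat.mul_le_mul (by norm_num) (Nat.pow_le_pow_right hK (by norm_num))

/-- GAP -/
theorem hGAP (hG : StGAB) : StGAP := by
  intro ε hε
  obtain ⟨p₁, h⟩ := hG ε hε
  refine ⟨p₁, fun p P hp hP hl => ?_⟩
  obtain ⟨J₀, h⟩ := h p P hp hP hl
  refine ⟨J₀, fun J r w hJ hr1 hr j' hj' => ?_⟩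
  refine le_trans (Finset.sum_le_sum fun j hj => ?_) ((h J r w hJ hr).2 j' hj')
  refine Finset.prod_le_prod_of_subset_of_one_le ?_ (fun l _ => by positivity) (fun l _ _ => ?_)
  · intro l hl'
    rw [mem_filter] at hl' ⊢
    refine ⟨hl'.1, hl'.2.trans ?_⟩
    unfold DD Pool.Agent.Helper98.LM.DD
    rw [mul_assoc]
    exact Dvd.intro_left _ rfl
  · have : (0 : ℝ) ≤ 8 / (l : ℝ) := by positivity
    linarith

private theorem fac_low {x : ℝ} (h0 : 0 ≤ x) (h1 : x ≤ 1 / 2) :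
    Real.exp (-(x + 2 * x ^ 2)) ≤ 1 - x := by
  rw [Real.exp_neg]
  have h2 : 1 + x + 2 * x ^ 2 ≤ Real.exp (x + 2 * x ^ 2) := by
    have := Real.add_one_le_exp (x + 2 * x ^ 2)
    linarith
  have h3 : 0 < 1 + x + 2 * x ^ 2 := by positivity
  calc (Real.exp (x + 2 * x ^ 2))⁻¹ ≤ (1 + x + 2 * x ^ 2)⁻¹ := inv_anti₀ h3 h2
    _ ≤ 1 - x := by
      rw [inv_le_iff_one_le_mul₀ h3]
      nlinarith [mul_nonneg (sq_nonneg x) (by linarith : 0 ≤ 1 - 2 * x)]

/-- VLP -/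
theorem hVLP (hL : StLOC) (hV : StVLB) : StVLP := by
  classical
  obtain ⟨c, hc, hV⟩ := hV
  have hsum2 : Summable (fun n : ℕ => 1 / (n : ℝ) ^ 2) := by
    exact_mod_cast Real.summable_one_div_nat_pow.2 (by norm_num : 1 < 2)
  obtain ⟨Z, hZ⟩ : ∃ Z, Z = ∑' n : ℕ, 1 / (n : ℝ) ^ 2 := ⟨_, rfl⟩
  refine ⟨c * Real.exp (-(2 * Z)), by positivity, ?_⟩
  intro p w P a y hp hw hlP hy
  have hw3 : (3 : ℝ) ≤ w := by exact_mod_cast hw
  have hlog : 0 < Real.log w := Real.log_pos (by linarith)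
  have h0 := hV p w hp hw
  have hfac : ∀ l ∈ QQ p w, (1 - (rh l : ℝ) / l) *
      Real.exp (-(if l ∣ y then 1 / (l : ℝ) + 2 * (1 / (l : ℝ) ^ 2) else 0)) ≤
        1 - ((SS P a y l).card : ℝ) / l := by
    intro l hl
    unfold QQ at hl
    rw [mem_filter, mem_Ioc] at hl
    obtain ⟨⟨h1, h2⟩, h3⟩ := hl
    have hl7 : (7 : ℝ) < l := by exact_mod_cast (by omega : 7 < l)
    have hlo := hL P a l h3 (by omega) (fun hd => by have := hlP l h3 hd; omega)
    have hr0 : (0 : ℝ) ≤ (rh l : ℝ) / l := by positivity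
    have hr2 : (rh l : ℝ) / l ≤ 1 := by
      have h4 : (rh l : ℝ) ≤ 2 := by
        unfold rh
        split_ifs <;> norm_num
      rw [div_le_one (by linarith)]
      linarith
    split_ifs with h
    · have h5 := hlo.2.1 y h
      rw [← SS_eq] at h5
      have h6 : ((SS P a y l).card : ℝ) / l ≤ 1 / l := by
        have : ((SS P a y l).card : ℝ) ≤ 1 := by exact_mod_cast h5
        exact div_le_div_of_nonneg_right this (by linarith)
      have h7 := fac_low (x := 1 / (l : ℝ)) (by positivity)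
        (by rw [div_le_div_iff₀ (by linarith) (by norm_num)]; linarith)
      have h8 : 1 / (l : ℝ) + 2 * (1 / (l : ℝ)) ^ 2 = 1 / (l : ℝ) + 2 * (1 / (l : ℝ) ^ 2) := by ring
      rw [h8] at h7
      have h9 := Real.exp_pos (-(1 / (l : ℝ) + 2 * (1 / (l : ℝ) ^ 2)))
      calc (1 - (rh l : ℝ) / l) * Real.exp (-(1 / (l : ℝ) + 2 * (1 / (l : ℝ) ^ 2))) ≤
          1 * Real.exp (-(1 / (l : ℝ) + 2 * (1 / (l : ℝ) ^ 2))) :=
            mul_le_mul_of_nonneg_right (by linarith) h9.le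
        _ ≤ 1 - ((SS P a y l).card : ℝ) / l := by linarith
    · have h5 := hlo.2.2.1 y h
      rw [← SS_eq] at h5
      rw [h5, neg_zero, Real.exp_zero, mul_one]
  have h1 : ∏ l ∈ QQ p w, ((1 - (rh l : ℝ) / l) *
      Real.exp (-(if l ∣ y then 1 / (l : ℝ) + 2 * (1 / (l : ℝ) ^ 2) else 0))) ≤ VV p w P a y := by
    unfold VV
    refine Finset.prod_le_prod (fun l hl => ?_) hfac
    refine mul_nonneg ?_ (Real.exp_pos _).le
    unfold QQ at hl
    rw [mem_filter, mem_Ioc] at hl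
    have hl7 : (7 : ℝ) < l := by exact_mod_cast (by omega : 7 < l)
    have h4 : (rh l : ℝ) ≤ 2 := by
      unfold rh
      split_ifs <;> norm_num
    rw [sub_nonneg, div_le_one (by linarith)]
    linarith
  rw [Finset.prod_mul_distrib, ← Real.exp_sum, Finset.sum_neg_distrib] at h1
  have h2 : ∑ l ∈ QQ p w, (if l ∣ y then 1 / (l : ℝ) + 2 * (1 / (l : ℝ) ^ 2) else 0) ≤ |cs p w y| + 2 * Z := by
    rw [← Finset.sum_filter, Finset.sum_add_distrib]
    have a1 : ∑ l ∈ (QQ p w).filter (fun l => l ∣ y), 1 / (l : ℝ) ≤ |cs p w y| := le_abs_self _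
    have a2 : ∑ l ∈ (QQ p w).filter (fun l => l ∣ y), 2 * (1 / (l : ℝ) ^ 2) ≤ 2 * Z := by
      rw [← Finset.mul_sum, hZ]
      exact mul_le_mul_of_nonneg_left (hsum2.sum_le_tsum _ (fun l _ => by positivity))
        (by norm_num)
    linarith
  have h3 : Real.exp (-(|cs p w y| + 2 * Z)) ≤
      Real.exp (-∑ l ∈ QQ p w, (if l ∣ y then 1 / (l : ℝ) + 2 * (1 / (l : ℝ) ^ 2) else 0)) :=
    Real.exp_le_exp.2 (neg_le_neg h2)
  have hVV : Pool.Agent.Helper98.LM.VV p w = ∏ l ∈ QQ p w, (1 - (rh l : ℝ) / l) := rfl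
  rw [← hVV] at h1
  refine le_trans ?_ h1
  have h5 : c / Real.log w * Real.exp (-(|cs p w y| + 2 * Z)) ≤
      Pool.Agent.Helper98.LM.VV p w * Real.exp (-∑ l ∈ QQ p w, (if l ∣ y then 1 / (l : ℝ) + 2 * (1 / (l : ℝ) ^ 2) else 0)) :=
    mul_le_mul h0 h3 (Real.exp_pos _).le (le_trans (by positivity) h0)
  refine le_trans (le_of_eq ?_) h5
  rw [neg_add, Real.exp_add]
  ring

private theorem one_add_le (s : Finset ℕ) (f : ℕ → ℝ) (hf : ∀ l ∈ s, 0 ≤ f l) :
    1 + ∑ l ∈ s, f l ≤ ∏ l ∈ s, (1 + f l) := by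
  classical
  induction s using Finset.induction_on with
  | empty => simp
  | insert a s ha ih =>
    rw [Finset.sum_insert ha, Finset.prod_insert ha]
    have h1 := ih fun l hl => hf l (Finset.mem_insert_of_mem hl)
    have h2 := hf a (Finset.mem_insert_self a s)
    have h3 : 0 ≤ ∑ l ∈ s, f l := Finset.sum_nonneg fun l hl => hf l (Finset.mem_insert_of_mem hl)
    calc 1 + (f a + ∑ l ∈ s, f l) ≤ (1 + f a) * (1 + ∑ l ∈ s, f l) := by nlinarith [mul_nonneg h2 h3]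
      _ ≤ (1 + f a) * ∏ l ∈ s, (1 + f l) := mul_le_mul_of_nonneg_left h1 (by linarith)

/-- TGO -/
theorem hTGO (hG : StGAB) : StTGO := by
  classical
  obtain ⟨p₁, h⟩ := hG 1 one_pos
  refine ⟨1, one_pos, p₁, fun p P hp hP hl => ?_⟩
  obtain ⟨J₀, h⟩ := h p P hp hP hl
  refine ⟨max J₀ 20, fun w J r hJ hr1 hr => ?_⟩
  have hJ0 : J₀ ≤ J := (le_max_left _ _).trans hJ
  have hJ20 : 20 ≤ J := (le_max_right _ _).trans hJ
  have h1 := (h J r w hJ0 hr).1
  have hcs0 : ∀ k, 0 ≤ cs p w k := fun k => Finset.sum_nonneg fun l _ => by positivity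
  have hge : ∀ k : ℕ, 1 + 8 * cs p w k ≤ ∏ l ∈ (QQ p w).filter (fun l => l ∣ k), (1 + 8 / (l : ℝ)) := by
    intro k
    have := one_add_le ((QQ p w).filter (fun l => l ∣ k))
      (fun l : ℕ => 8 / (l : ℝ)) (fun l _ => by positivity)
    refine le_trans (le_of_eq ?_) this
    unfold cs
    rw [Finset.mul_sum]
    congr 1
    exact Finset.sum_congr rfl fun l _ => by ring
  have h2 : ∑ j ∈ Icc 1 J, (1 + 8 * cs p w (r + P * j)) ≤ (1 + 1) * J :=
    (Finset.sum_le_sum fun j _ => hge (r + P * j)).trans h1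
  rw [Finset.sum_add_distrib, Finset.sum_const, Nat.card_Icc, Nat.add_sub_cancel, nsmul_eq_mul, mul_one,
    ← Finset.mul_sum] at h2
  have h3 : ∑ j ∈ Icc 1 J, cs p w (r + P * j) ≤ J / 8 := by linarith
  obtain ⟨B, hB⟩ : ∃ B : Finset ℕ, B = (Icc 1 J).filter (fun j : ℕ => ¬ |cs p w (r + P * j)| ≤ 1) := ⟨_, rfl⟩
  have h4 : (B.card : ℝ) ≤ J / 8 := by
    have e1 : (B.card : ℝ) = ∑ j ∈ B, (1 : ℝ) := by rw [Finset.sum_const, nsmul_eq_mul, mul_one]
    have e2 : ∑ j ∈ B, (1 : ℝ) ≤ ∑ j ∈ B, cs p w (r + P * j) := by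
      refine Finset.sum_le_sum fun j hj => ?_
      rw [hB, mem_filter, abs_of_nonneg (hcs0 _)] at hj
      exact (not_le.1 hj.2).le
    have e3 : ∑ j ∈ B, cs p w (r + P * j) ≤ ∑ j ∈ Icc 1 J, cs p w (r + P * j) := by
      refine Finset.sum_le_sum_of_subset_of_nonneg ?_ fun j _ _ => hcs0 _
      rw [hB]
      exact filter_subset _ _
    linarith
  have h5 : Icc 1 J ⊆ TT 1 p w P r J ∪ (B ∪ Icc 1 5) := by
    intro j hj
    rw [mem_union, mem_union]
    unfold TT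
    by_cases hc : |cs p w (r + P * j)| ≤ 1
    · by_cases h6 : 6 ≤ r + P * j
      · exact Or.inl (mem_filter.2 ⟨hj, h6, hc⟩)
      · right
        right
        have : j ≤ P * j := Nat.le_mul_of_pos_left j hP
        exact mem_Icc.2 ⟨(mem_Icc.1 hj).1, by omega⟩
    · right
      left
      rw [hB]
      exact mem_filter.2 ⟨hj, hc⟩
  have h6 : J ≤ (TT 1 p w P r J).card + (B.card + 5) := by
    have := (card_le_card h5).trans ((card_union_le _ _).trans (Nat.add_le_add_left (card_union_le _ _) _))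
    rw [Nat.card_Icc, Nat.card_Icc] at this
    omega
  have h7 : (J : ℝ) ≤ ((TT 1 p w P r J).card : ℝ) + (B.card + 5) := by exact_mod_cast h6
  have h8 : (20 : ℝ) ≤ J := by exact_mod_cast hJ20
  linarith

/-- RRP -/
theorem hRRP : StRRP := by
  intro p a
  obtain ⟨P, hP⟩ : ∃ P : ℕ, P = primorial p := ⟨_, rfl⟩
  have hP0 : 0 < P := by rw [hP]; exact primorial_pos p
  have hsq : Squarefree P := by rw [hP]; exact squarefree_primorial p
  obtain ⟨g, hg⟩ : ∃ g : ℕ, g = Nat.gcd P a := ⟨_, rfl⟩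
  obtain ⟨r, hr⟩ : ∃ r : ℕ, r = P / g := ⟨_, rfl⟩
  have hgP : g ∣ P := hg ▸ Nat.gcd_dvd_left P a
  have hga : g ∣ a := hg ▸ Nat.gcd_dvd_right P a
  have hg0 : 0 < g := Nat.pos_of_dvd_of_pos hgP hP0
  have hrg : r * g = P := by rw [hr]; exact Nat.div_mul_cancel hgP
  have hr0 : 0 < r := by
    rcases Nat.eq_zero_or_pos r with h | h
    · rw [h, zero_mul] at hrg; omega
    · exact h
  have hrP : r ≤ P := by
    rw [← hrg]; exact Nat.le_mul_of_pos_right r hg0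
  refine ⟨r, hr0, hP ▸ hrP, fun q hq hqp hqf => ?_⟩
  have hqi : Prime (q : ℤ) := Nat.prime_iff_prime_int.1 hq
  have hqP : q ∣ P := by rw [hP]; exact (Nat.Prime.dvd_primorial_iff hq).2 hqp
  unfold ff at hqf
  by_cases hqa : q ∣ a
  · have hqg : q ∣ g := by rw [hg]; exact Nat.dvd_gcd hqP hqa
    have hqr : ¬ q ∣ r := by
      intro h
      have h1 : q * q ∣ P := by rw [← hrg]; exact Nat.mul_dvd_mul h hqg
      exact hq.one_lt.ne' (Nat.isUnit_iff.1 (hsq q h1))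
    have hqa' : (q : ℤ) ∣ (a : ℤ) := by exact_mod_cast hqa
    have h1 : (q : ℤ) ∣ (r : ℤ) ^ 2 := by
      have e : (r : ℤ) ^ 2 = ((a : ℤ) ^ 2 - a * r + (r : ℤ) ^ 2) - (a : ℤ) * (a - r) := by ring
      rw [e]
      exact dvd_sub hqf (hqa'.mul_right _)
    have h2 := hqi.dvd_of_dvd_pow h1
    exact hqr (by exact_mod_cast h2)
  · have hqg : ¬ q ∣ g := fun h => hqa (h.trans hga)
    have hqr : q ∣ r := by
      have h1 : q ∣ r * g := by rw [hrg]; exact hqP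
      exact (hq.dvd_mul.1 h1).resolve_right hqg
    have hqr' : (q : ℤ) ∣ (r : ℤ) := by exact_mod_cast hqr
    have h1 : (q : ℤ) ∣ (a : ℤ) ^ 2 := by
      have e : (a : ℤ) ^ 2 = ((a : ℤ) ^ 2 - a * r + (r : ℤ) ^ 2) - (r : ℤ) * (r - a) := by ring
      rw [e]
      exact dvd_sub hqf (hqr'.mul_right _)
    have h2 : q ∣ a := by exact_mod_cast hqi.dvd_of_dvd_pow h1
    exact hqa h2

end Pool.Agent.Helper33.LMA
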