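import Pool.Agent.Helper6.LPA.St
import Pool.Agent.Helper98.LM.St

/-!
# Project LMA (MP_d57c14_nt): as project LM, with an exponent that does not depend on `ε`
Port of project LPA (`Pool/Agent/Helper6/LPA/St.lean`) to the form `n ^ 2 - n k + k ^ 2`. Statements of the modules.
-/

set_option autoImplicit false

noncomputable section

namespace Pool.Agent.Helper33.LMA

open Finset
open Pool.Agent.Helper98.LM (QQ)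
open Pool.Agent.Helper6.LPA (Wt SvP StMAS StCMB)

/-- the form -/
def ff (n y : ℤ) : ℤ := n ^ 2 - n * y + y ^ 2

/-- the classes of `m` modulo `l` with `l ∣ ff (a + P m) y` -/
def SS (P a y l : ℕ) : Finset ℕ := (range l).filter (fun s : ℕ => (l : ℤ) ∣ ff ((a : ℤ) + P * s) y)

/-- the density for `y` -/
def VV (p w P a y : ℕ) : ℝ := ∏ l ∈ QQ p w, (1 - ((SS P a y l).card : ℝ) / l)

/-- no prime factor in `(p, w]` -/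
def Sf (p w : ℕ) (n y : ℤ) : Prop := ∀ l ∈ QQ p w, ¬ (l : ℤ) ∣ ff n y

/-- the prime divisors of `y` -/
def cs (p w y : ℕ) : ℝ := ∑ l ∈ (QQ p w).filter (fun l => l ∣ y), (1 : ℝ) / l

open Classical in
/-- the good `j` -/
def TT (A : ℝ) (p w P r J : ℕ) : Finset ℕ :=
  (Icc 1 J).filter (fun j : ℕ => 6 ≤ r + P * j ∧ |cs p w (r + P * j)| ≤ A)

open Classical in
/-- the weighted number of the good `j` for which the value at `n = a + P m`, `y = r + P j` has no prime factor in `(p, w]` -/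
def XX (A : ℝ) (p w P a r J m : ℕ) : ℝ :=
  ∑ j ∈ (TT A p w P r J).filter (fun j : ℕ => Sf p w ((a : ℤ) + P * m) ((r + P * j : ℕ) : ℤ)), (VV p w P a (r + P * j))⁻¹

/-- the correlation of `y`, `z` -/
def DD (y z : ℕ) : ℕ := ((y : ℤ) - z).natAbs * (y ^ 2 + y * z + z ^ 2)

/-- (LOP) -/
def StLOP : Prop := ∀ P a l : ℕ, l.Prime → 3 < l → ¬ l ∣ P →
  (∀ y : ℕ, 2 ≤ y → ((SS P a y l).card : ℝ) ≤ 3) ∧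
  ∀ y z : ℕ, ¬ l ∣ DD y z → Disjoint (SS P a y l) (SS P a z l)

/-- (GAP) -/
def StGAP : Prop := ∀ ε : ℝ, 0 < ε → ∃ p₁ : ℕ, ∀ p P : ℕ, p₁ ≤ p → 1 ≤ P → (∀ l : ℕ, l.Prime → l ∣ P → l ≤ p) →
  ∃ J₀ : ℕ, ∀ J r w : ℕ, J₀ ≤ J → 1 ≤ r → r ≤ P →
    ∀ j' ∈ Icc 1 J, ∑ j ∈ (Icc 1 J).erase j',
      ∏ l ∈ (QQ p w).filter (fun l => l ∣ DD (r + P * j) (r + P * j')), (1 + 8 / (l : ℝ)) ≤ (1 + ε) * J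

/-- (VLP) -/
def StVLP : Prop := ∃ c : ℝ, 0 < c ∧ ∀ p w P a y : ℕ, 7 ≤ p → 3 ≤ w → (∀ l : ℕ, l.Prime → l ∣ P → l ≤ p) → 2 ≤ y →
  c * Real.exp (-|cs p w y|) / Real.log w ≤ VV p w P a y

open Classical in
/-- (TGO) -/
def StTGO : Prop := ∃ A : ℝ, 0 < A ∧ ∃ p₀ : ℕ, ∀ p P : ℕ, p₀ ≤ p → 1 ≤ P → (∀ l : ℕ, l.Prime → l ∣ P → l ≤ p) →
  ∃ J₀ : ℕ, ∀ w J r : ℕ, J₀ ≤ J → 1 ≤ r → r ≤ P →
    (J : ℝ) ≤ 2 * ((TT A p w P r J).card : ℝ)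

/-- (RRP) -/
def StRRP : Prop := ∀ p a : ℕ, ∃ r : ℕ, 1 ≤ r ∧ r ≤ primorial p ∧ ∀ q : ℕ, q.Prime → q ≤ p → ¬ (q : ℤ) ∣ ff a r

/-- the density of the `m` such that all `l ∈ T` divide `ff (a + P m) y` -/
def gg (P a y : ℕ) (T : Finset ℕ) : ℝ := ∏ l ∈ T, ((SS P a y l).card : ℝ) / l

/-- all `l ∈ T` divide -/
def Dv (T : Finset ℕ) (n y : ℤ) : Prop := ∀ l ∈ T, (l : ℤ) ∣ ff n y

open Classical in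
/-- the sum of the weights -/
def WS (F : Finset (Finset ℕ)) (n y : ℤ) : ℝ := ∑ T ∈ F, (-1 : ℝ) ^ T.card * (if Dv T n y then 1 else 0)

/-- its mean value -/
def GG (F : Finset (Finset ℕ)) (P a y : ℕ) : ℝ := ∑ T ∈ F, (-1 : ℝ) ^ T.card * gg P a y T

/-- the density for `y` -/
def VW (F : Finset (Finset ℕ)) (p z P a y : ℕ) : ℝ := VV p z P a y * GG F P a y

/-- the density for the pair `y`, `y'` -/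
def VD (p z P a y y' : ℕ) : ℝ := ∏ l ∈ QQ p z, (1 - ((SS P a y l ∪ SS P a y' l).card : ℝ) / l)

open Classical in
/-- the weighted number of the good `j` -/
def XW (F : Finset (Finset ℕ)) (A : ℝ) (p z w P a r J m : ℕ) : ℝ :=
  ∑ j ∈ (TT A p w P r J).filter (fun j : ℕ => Sf p z ((a : ℤ) + P * m) ((r + P * j : ℕ) : ℤ)),
    (VW F p z P a (r + P * j))⁻¹ * WS F ((a : ℤ) + P * m) ((r + P * j : ℕ) : ℤ)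

open Classical in
/-- (ONQ) as in `Pool/Agent/Helper6/LPA/St.lean` -/
def StONQ : Prop := ∀ (ε : ℝ) (K B : ℕ), SvP ε K B → ∀ p P a y z w M : ℕ, ∀ T ⊆ QQ z w, 24 ≤ p → p ≤ z →
  (∀ l : ℕ, l.Prime → l ∣ P → l ≤ p) → 2 ≤ y →
  |(((Icc 1 M).filter (fun m : ℕ => Sf p z ((a : ℤ) + P * m) y ∧ Dv T ((a : ℤ) + P * m) y)).card : ℝ) - M * (VV p z P a y * gg P a y T)| ≤
    ε / (B : ℝ) ^ K * (M * (VV p z P a y * gg P a y T)) + (z : ℝ) ^ B * ∏ l ∈ T, (l : ℝ)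

open Classical in
/-- (PRQ) as in `Pool/Agent/Helper6/LPA/St.lean` -/
def StPRQ : Prop := ∀ (ε : ℝ) (K B : ℕ), SvP ε K B → ∀ p P a y y' z w M : ℕ, ∀ T ⊆ QQ z w, ∀ T' ⊆ QQ z w, 24 ≤ p → p ≤ z →
  (∀ l : ℕ, l.Prime → l ∣ P → l ≤ p) → 2 ≤ y → 2 ≤ y' → 1 ≤ DD y y' → DD y y' ≤ z →
  (Disjoint T T' → |(((Icc 1 M).filter (fun m : ℕ => (Sf p z ((a : ℤ) + P * m) y ∧ Dv T ((a : ℤ) + P * m) y) ∧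
      Sf p z ((a : ℤ) + P * m) y' ∧ Dv T' ((a : ℤ) + P * m) y')).card : ℝ) - M * (VD p z P a y y' * (gg P a y T * gg P a y' T'))| ≤
    ε / (B : ℝ) ^ K * (M * (VD p z P a y y' * (gg P a y T * gg P a y' T'))) + (z : ℝ) ^ B * ((∏ l ∈ T, (l : ℝ)) * ∏ l ∈ T', (l : ℝ))) ∧
  (¬ Disjoint T T' → (Icc 1 M).filter (fun m : ℕ => Dv T ((a : ℤ) + P * m) y ∧ Dv T' ((a : ℤ) + P * m) y') = ∅) ∧
  0 ≤ VD p z P a y y' ∧ VD p z P a y y' ≤ VV p z P a y * VV p z P a y' * ∏ l ∈ (QQ p z).filter (fun l => l ∣ DD y y'), (1 + 8 / (l : ℝ))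

open Classical in
/-- (GGL) as in `Pool/Agent/Helper6/LPA/St.lean` -/
def StGGL : Prop := ∃ C : ℝ, 1 ≤ C ∧ ∀ (p P a z w B B₁ : ℕ) (F : Finset (Finset ℕ)), 24 ≤ p → p ≤ z → z ≤ w → 1 ≤ B → w < (z + 1) ^ B →
  (∀ l : ℕ, l.Prime → l ∣ P → l ≤ p) → Wt B₁ w (QQ z w) F →
  (∀ y : ℕ, 2 ≤ y → 0 < VV p z P a y ∧ 1 ≤ C * (B : ℝ) ^ 3 * GG F P a y ∧ VV p w P a y ≤ 2 * VW F p z P a y ∧
    (∀ T ∈ F, 0 ≤ gg P a y T) ∧ ∑ T ∈ F, gg P a y T ≤ C * (B : ℝ) ^ 3 ∧ ∑ T ∈ F, ∑ T' ∈ F, gg P a y (T ∪ T') ≤ C * (B : ℝ) ^ 12) ∧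
  ∀ y y' : ℕ, 2 ≤ y → 2 ≤ y' → ∑ T ∈ F, ∑ T' ∈ F.filter (fun T' => ¬ Disjoint T T'), gg P a y T * gg P a y' T' ≤ C * (B : ℝ) ^ 6 / z

/-- (MOR) as in `Pool/Agent/Helper6/LPA/St.lean` -/
def StMOR : Prop := ∃ C : ℝ, 1 ≤ C ∧ ∀ (η : ℝ) (B B₁ : ℕ), 0 < η → 1 ≤ B → SvP η 12 B → ∀ (A Λ : ℝ) (p P a r J M z w : ℕ) (F : Finset (Finset ℕ)),
  24 ≤ p → p ≤ z → z ^ B ≤ w → w < (z + 1) ^ B → (∀ l : ℕ, l.Prime → l ∣ P → l ≤ p) → Wt B₁ w (QQ z w) F → 1 ≤ Λ →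
  (∀ j ∈ TT A p w P r J, 1 ≤ Λ * VV p w P a (r + P * j)) →
  (1 - C * η) * (M * ((TT A p w P r J).card : ℝ)) - 2 * ((TT A p w P r J).card * Λ * (w : ℝ) ^ (2 * B₁ + 1)) ≤
    ∑ m ∈ Icc 1 M, XW F A p z w P a r J m

open Classical in
/-- (DIA) as in `Pool/Agent/Helper6/LPA/St.lean` -/
def StDIA : Prop := ∃ C : ℝ, 1 ≤ C ∧ ∀ (η : ℝ) (B B₁ : ℕ), 0 < η → η ≤ 1 → 1 ≤ B → SvP η 12 B → ∀ (p P a y M z w : ℕ) (F : Finset (Finset ℕ)),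
  24 ≤ p → p ≤ z → z ^ B ≤ w → w < (z + 1) ^ B → (∀ l : ℕ, l.Prime → l ∣ P → l ≤ p) → 2 ≤ y → Wt B₁ w (QQ z w) F →
  ∑ m ∈ (Icc 1 M).filter (fun m : ℕ => Sf p z ((a : ℤ) + P * m) y), WS F ((a : ℤ) + P * m) y ^ 2 ≤
    C * (B : ℝ) ^ 12 * (M * VV p z P a y) + (w : ℝ) ^ (4 * B₁ + 1)

open Classical in
/-- (OFF) as in `Pool/Agent/Helper6/LPA/St.lean` -/
def StOFF : Prop := ∃ C : ℝ, 1 ≤ C ∧ ∀ (η : ℝ) (B B₁ : ℕ), 0 < η → η ≤ 1 → 1 ≤ B → SvP η 12 B → ∀ (p P a y y' M z w : ℕ) (F : Finset (Finset ℕ)),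
  24 ≤ p → p ≤ z → z ^ B ≤ w → w < (z + 1) ^ B → (∀ l : ℕ, l.Prime → l ∣ P → l ≤ p) → 2 ≤ y → 2 ≤ y' → 1 ≤ DD y y' → DD y y' ≤ z →
  (B : ℝ) ^ 12 ≤ η * z → Wt B₁ w (QQ z w) F →
  ∑ m ∈ (Icc 1 M).filter (fun m : ℕ => Sf p z ((a : ℤ) + P * m) y ∧ Sf p z ((a : ℤ) + P * m) y'),
      WS F ((a : ℤ) + P * m) y * WS F ((a : ℤ) + P * m) y' ≤
    (1 + C * η) * (M * (VW F p z P a y * VW F p z P a y') * ∏ l ∈ (QQ p z).filter (fun l => l ∣ DD y y'), (1 + 8 / (l : ℝ))) +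
      (w : ℝ) ^ (4 * B₁ + 1)

/-- (DDB) as in `Pool/Agent/Helper6/LPA/St.lean` -/
def StDDB : Prop := ∀ K y y' : ℕ, 1 ≤ y → 1 ≤ y' → y ≤ K → y' ≤ K → y ≠ y' → 1 ≤ DD y y' ∧ DD y y' ≤ 400 * K ^ 13

/-- (MSR) as in `Pool/Agent/Helper6/LPA/St.lean` -/
def StMSR : Prop := ∃ C : ℝ, 1 ≤ C ∧ ∀ (η : ℝ) (B B₁ : ℕ), 0 < η → η ≤ 1 → 1 ≤ B → SvP η 12 B → ∃ p₁ : ℕ, 24 ≤ p₁ ∧ ∀ p P : ℕ, p₁ ≤ p → 1 ≤ P →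
  (∀ l : ℕ, l.Prime → l ∣ P → l ≤ p) → ∃ J₀ : ℕ, ∀ (A Λ : ℝ) (J a r z w M : ℕ) (F : Finset (Finset ℕ)), J₀ ≤ J → 1 ≤ r → r ≤ P → p ≤ z →
    400 * (P * (J + 1)) ^ 13 ≤ z → (B : ℝ) ^ 12 ≤ η * z → z ^ B ≤ w → w < (z + 1) ^ B → Wt B₁ w (QQ z w) F → 1 ≤ Λ →
    (∀ j ∈ TT A p w P r J, 1 ≤ Λ * VV p w P a (r + P * j)) →
    ∑ m ∈ Icc 1 M, XW F A p z w P a r J m ^ 2 ≤
      (1 + C * η) * (M * (((TT A p w P r J).card : ℝ) * ((TT A p w P r J).card + η * J + 1))) +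
        C * (B : ℝ) ^ 15 * (M * ((TT A p w P r J).card : ℝ) * Λ) + 8 * (((TT A p w P r J).card : ℝ) ^ 2 * Λ ^ 2 * (w : ℝ) ^ (4 * B₁ + 1))

/-- (XPX) as in `Pool/Agent/Helper6/LPA/St.lean` -/
def StXPX : Prop := ∀ (A Λ : ℝ) (p z w P a r J m B₁ : ℕ) (F : Finset (Finset ℕ)), p ≤ z → z ≤ w → Wt B₁ w (QQ z w) F → 1 ≤ Λ →
  (∀ j ∈ TT A p w P r J, 1 ≤ Λ * VV p w P a (r + P * j)) → (∀ j ∈ TT A p w P r J, 0 < VW F p z P a (r + P * j)) →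
  XX A p w P a r J m = 0 → XW F A p z w P a r J m ≤ 0

open Classical in
/-- (CHU) as in `Pool/Agent/Helper6/LPA/St.lean` -/
def StCHU : Prop := ∃ C : ℝ, 1 ≤ C ∧ ∀ (η : ℝ) (B B₁ : ℕ), 0 < η → η ≤ 1 → 1 ≤ B → SvP η 12 B → ∃ p₁ : ℕ, 24 ≤ p₁ ∧ ∀ p P : ℕ, p₁ ≤ p → 1 ≤ P →
  (∀ l : ℕ, l.Prime → l ∣ P → l ≤ p) → ∃ J₀ : ℕ, ∀ (A Λ : ℝ) (J a r z w M : ℕ) (F : Finset (Finset ℕ)), J₀ ≤ J → 1 ≤ J → 1 ≤ r → r ≤ P → p ≤ z →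
    400 * (P * (J + 1)) ^ 13 ≤ z → (B : ℝ) ^ 12 ≤ η * z → z ^ B ≤ w → w < (z + 1) ^ B → Wt B₁ w (QQ z w) F → 1 ≤ Λ →
    (∀ j ∈ TT A p w P r J, 1 ≤ Λ * VV p w P a (r + P * j)) → (J : ℝ) ≤ 2 * ((TT A p w P r J).card : ℝ) →
    (((Icc 1 M).filter (fun m : ℕ => XX A p w P a r J m = 0)).card : ℝ) ≤
      C * η * M + C * (B : ℝ) ^ 15 * (M * Λ / J) + 12 * (Λ ^ 2 * (w : ℝ) ^ (4 * B₁ + 1))

open Classical in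
/-- (CHR) -/
def StCHR : Prop := ∃ A δ : ℝ, 0 < A ∧ 0 < δ ∧ δ ≤ 1 ∧ ∀ ε : ℝ, 0 < ε → ∃ C : ℝ, 0 < C ∧ ∃ p₁ : ℕ, 32 ≤ p₁ ∧ ∀ p P : ℕ, p₁ ≤ p →
  1 ≤ P → (∀ l : ℕ, l.Prime → l ∣ P → l ≤ p) → ∃ M₀ : ℕ, ∀ M I J a r : ℕ, M₀ ≤ M → (2 : ℝ) ^ I ≤ (M : ℝ) ^ δ →
    (M : ℝ) ^ δ < 2 ^ (I + 1) → C * Real.log M ≤ J → (J : ℝ) ≤ C * Real.log M + 1 → 1 ≤ r → r ≤ P →
    (((Icc 1 M).filter (fun m : ℕ => XX A p (2 ^ I - 1) P a r J m = 0)).card : ℝ) ≤ ε * M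

end Pool.Agent.Helper33.LMA
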